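import Pool.Agent.X40.OS.O6

/-!
The variance of the number of representations `n = p + m²` of even `n` with `p ≤ λ √n log n`:
it is that of a Poisson variable whose mean is the Hardy-Littlewood prediction `λ h_n`.

Method: write `n = s² + r` with `0 ≤ r ≤ 2 s`; then `m = s - i` with `i` of size at most a constant times
`log n`. The pairs `(s - i, s - j)`, `i ≠ j`, give two linear forms in `(s, r)` whose values have the
difference `(j - i) (2 s - i - j)`, so that the pair correlations, summed over ALL `(s, r)` with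
`s² + r` in a residue class modulo `W = ∏_{p ≤ w} p`, can be computed for every single pair `(i, j)` from
the exponential sums of the primes minus their sieve model and the fundamental lemma. Summing the
singular series over `i, j` gives the second moment in each residue class up to a relative error `2 / w`;
only the classes of even numbers are used. Finally the constants `h_n` are close in mean square to
their partial products up to `w`.
-/

set_option autoImplicit false

namespace Pool.Agent.Results.MP_d48457_nt.LeastPrimesPoissonVariance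

open Finset Filter Topology

/-- the product over the odd primes `w ≤ z` of `1 - (n | w) / (w - 1)` -/
noncomputable def hcut (n : ℕ) (z : ℕ) : ℝ :=
  ∏ w ∈ (Finset.range (z + 1)).filter (fun w => Nat.Prime w ∧ w ≠ 2),
    (1 - (jacobiSym (n : ℤ) w : ℝ) / ((w : ℝ) - 1))

/-- the number of primes `p ≤ x` such that `n = p + m²` for some integer `m` -/
noncomputable def R (n : ℕ) (x : ℝ) : ℕ :=
  {p : ℕ | p.Prime ∧ (p : ℝ) ≤ x ∧ ∃ m : ℕ, n = p + m ^ 2}.ncard

lemma R_eq (K : ℕ) (lam : ℝ) : (R K (lam * √(K : ℝ) * Real.log K) : ℝ) = Pool.Agent.X40.OS.NO lam K := by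
  classical
  obtain ⟨x, hx⟩ : ∃ x, x = lam * √(K : ℝ) * Real.log K := ⟨_, rfl⟩
  have hset : {p : ℕ | p.Prime ∧ (p : ℝ) ≤ x ∧ ∃ m : ℕ, K = p + m ^ 2} =
      (((((range (Nat.sqrt K + 1)).filter (fun n : ℕ => (K : ℝ) - (n : ℝ) ^ 2 ≤ x)).filter
        (fun n : ℕ => Nat.Prime ((n : ℤ) ^ 2 - K).natAbs)).image (fun n => K - n ^ 2) : Finset ℕ) : Set ℕ) := by
    ext p
    simp only [Set.mem_ofPred_eq, coe_image, coe_filter, mem_filter, mem_range, Set.mem_image]
    constructor
    · rintro ⟨h1, h2, m, hm⟩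
      refine ⟨m, ⟨⟨?_, ?_⟩, ?_⟩, ?_⟩
      · rw [Nat.lt_succ_iff, Nat.le_sqrt']
        omega
      · have : (K : ℝ) = p + (m : ℝ) ^ 2 := by exact_mod_cast hm
        linarith
      · have e : ((m : ℤ) ^ 2 - K).natAbs = p := by
          have : (K : ℤ) = p + (m : ℤ) ^ 2 := by exact_mod_cast hm
          rw [this]
          have e2 : (m : ℤ) ^ 2 - (p + (m : ℤ) ^ 2) = -(p : ℤ) := by ring
          rw [e2]
          simp
        rw [e]
        exact h1
      · omega
    · rintro ⟨m, ⟨⟨h1, h2⟩, h3⟩, h4⟩
      rw [Nat.lt_succ_iff, Nat.le_sqrt'] at h1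
      have e : ((m : ℤ) ^ 2 - K).natAbs = p := by
        have h5 : ((K - m ^ 2 : ℕ) : ℤ) = (K : ℤ) - (m : ℤ) ^ 2 := by
          rw [Nat.cast_sub h1]
          push_cast
          ring
        have h6 : (m : ℤ) ^ 2 - K = -(p : ℤ) := by
          rw [← h4, h5]; ring
        rw [h6]
        simp
      rw [e] at h3
      have h7 : K = p + m ^ 2 := by omega
      refine ⟨h3, ?_, m, h7⟩
      have : (K : ℝ) = p + (m : ℝ) ^ 2 := by exact_mod_cast h7
      linarith
  unfold R
  rw [← hx, hset, Set.ncard_coe_finset, card_image_of_injOn]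
  · unfold Pool.Agent.X40.OS.NO Pool.Agent.X40.HLK.P1
    rw [sum_boole, hx]
  · intro a ha b hb hab
    rw [coe_filter, Set.mem_ofPred_eq, mem_filter, mem_range, Nat.lt_succ_iff, Nat.le_sqrt'] at ha hb
    simp only at hab
    have h1 := ha.1.1
    have h2 := hb.1.1
    have h3 : a ^ 2 = b ^ 2 := by omega
    exact Nat.pow_left_injective (n := 2) (by norm_num) h3

/-- **The variance of the number of representations of even `n` by small primes and squares is the
Poisson variance.** For all `U`, `λ > 0` and `ε > 0` and all large `X` there is a set `Bad` of at most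
`X / (log X)^U` even integers such that for all the other even `n` in `[1, X]`: `n` is not a square and
the product `h_n` converges to a number `h_n > 0`; and, with `R_n(x)` the number of primes `p ≤ x` such
that `n - p` is a square, the sum over these `n` of `(R_n(λ √n log n) - λ h_n)²` is `λ X / 2` up to `ε X`. -/
theorem result : ∀ (U : ℕ) (lam ε : ℝ), 0 < lam → 0 < ε → ∃ X₀ : ℕ, ∀ X : ℕ, X₀ ≤ X →
    ∃ Bad ⊆ (Icc 1 X).filter (fun n : ℕ => Even n), (#Bad : ℝ) ≤ X / Real.log X ^ U ∧ ∃ h : ℕ → ℝ,
      (∀ n ∈ (Icc 1 X).filter (fun n : ℕ => Even n), n ∉ Bad →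
        ¬ IsSquare n ∧ 0 < h n ∧ Tendsto (fun z : ℕ => hcut n z) atTop (𝓝 (h n))) ∧
      |∑ n ∈ (Icc 1 X).filter (fun n : ℕ => Even n) \ Bad, ((R n (lam * √(n : ℝ) * Real.log n) : ℝ) - lam * h n) ^ 2 -
        lam / 2 * X| ≤ ε * X := by
  classical
  intro U lam ε hlam hε
  obtain ⟨X₀, h0⟩ := Pool.Agent.X40.OS.var_even U lam ε hlam hε
  refine ⟨X₀, fun X hX => ?_⟩
  obtain ⟨Bad, hB1, hB2, h, hh, hs⟩ := h0 X hX
  have hE : (Icc 1 X).filter (fun n : ℕ => Even n) = (Icc 1 X).filter (fun n : ℕ => n % 2 = 0) := by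
    apply filter_congr
    intro n _
    exact Nat.even_iff
  rw [hE]
  refine ⟨Bad, hB1, hB2, h, ?_, ?_⟩
  · intro n hn hnB
    obtain ⟨k1, k2, k3⟩ := hh n hn hnB
    refine ⟨fun hc => k1 ?_, k2, ?_⟩
    · obtain ⟨r, hr⟩ := hc
      exact ⟨(r : ℤ), by exact_mod_cast hr⟩
    · have e2 : (fun z : ℕ => hcut n z) = fun z : ℕ => Pool.Agent.TH892.SW.HP (n : ℤ) z := by
        funext z
        unfold hcut Pool.Agent.TH892.SW.HP
        rfl
      rw [e2]
      exact k3
  · simp_rw [R_eq]
    exact hs

end Pool.Agent.Results.MP_d48457_nt.LeastPrimesPoissonVariance
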