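import Pool.Agent.X40.OS.O7

/-!
However large `λ` is, a positive proportion of the even integers `n` have no prime `p ≤ λ √n log n` with
`n - p` a square, and, however small `λ` is, a positive proportion has at least `k` such primes, for
every `k`.

Method: the first two moments of the number of these primes over the `n` in a residue class modulo
`W = ∏_{p ≤ w} p` (`Pool/Agent/X40/OS/O5`). In the class of `4` the mean value is smaller than any given
number; in a class of even numbers that are nonresidues modulo all odd `p ≤ w` the mean value `μ` is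
larger than any given number, and the variance is at most `μ + (2 / w) μ²`.
-/

set_option autoImplicit false

namespace Pool.Agent.Results.MP_d48457_nt.NoneOrManySmallPrimes

open Finset Filter Topology

/-- the number of primes `p ≤ x` such that `n = p + m²` for some integer `m` -/
noncomputable def R (n : ℕ) (x : ℝ) : ℕ :=
  {p : ℕ | p.Prime ∧ (p : ℝ) ≤ x ∧ ∃ m : ℕ, n = p + m ^ 2}.ncard

lemma R_eq (K : ℕ) (lam : ℝ) : (R K (lam * √(K : ℝ) * Real.log K) : ℝ) = Pool.Agent.X40.OS.NO lam K := by
  classical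
  obtain ⟨x, hx⟩ : ∃ x, x = lam * √(K : ℝ) * Real.log K := ⟨_, rfl⟩
  have hset : {p : ℕ | p.Prime ∧ (p : ℝ) ≤ x ∧ ∃ m : ℕ, K = p + m ^ 2} =
      (((((range (Nat.sqrt K + 1)).filter (fun n : ℕ => (K : ℝ) - (n : ℝ) ^ 2 ≤ x)).filter
        (fun n : ℕ => Nat.Prime ((n : ℤ) ^ 2 - K).natAbs)).image (fun n => K - n ^ 2) : Finset ℕ) : Set ℕ) := by
    ext p
    simp only [Set.mem_ofPred_eq, coe_image, coe_filter, mem_filter, mem_range, Set.mem_image]
    constructor
    · rintro ⟨h1, h2, m, hm⟩
      refine ⟨m, ⟨⟨?_, ?_⟩, ?_⟩, ?_⟩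
      · rw [Nat.lt_succ_iff, Nat.le_sqrt']
        omega
      · have : (K : ℝ) = p + (m : ℝ) ^ 2 := by exact_mod_cast hm
        linarith
      · have e : ((m : ℤ) ^ 2 - K).natAbs = p := by
          have : (K : ℤ) = p + (m : ℤ) ^ 2 := by exact_mod_cast hm
          rw [this]
          have e2 : (m : ℤ) ^ 2 - (p + (m : ℤ) ^ 2) = -(p : ℤ) := by ring
          rw [e2]
          simp
        rw [e]
        exact h1
      · omega
    · rintro ⟨m, ⟨⟨h1, h2⟩, h3⟩, h4⟩
      rw [Nat.lt_succ_iff, Nat.le_sqrt'] at h1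
      have e : ((m : ℤ) ^ 2 - K).natAbs = p := by
        have h5 : ((K - m ^ 2 : ℕ) : ℤ) = (K : ℤ) - (m : ℤ) ^ 2 := by
          rw [Nat.cast_sub h1]
          push_cast
          ring
        have h6 : (m : ℤ) ^ 2 - K = -(p : ℤ) := by
          rw [← h4, h5]; ring
        rw [h6]
        simp
      rw [e] at h3
      have h7 : K = p + m ^ 2 := by omega
      refine ⟨h3, ?_, m, h7⟩
      have : (K : ℝ) = p + (m : ℝ) ^ 2 := by exact_mod_cast h7
      linarith
  unfold R
  rw [← hx, hset, Set.ncard_coe_finset, card_image_of_injOn]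
  · unfold Pool.Agent.X40.OS.NO Pool.Agent.X40.HLK.P1
    rw [sum_boole, hx]
  · intro a ha b hb hab
    rw [coe_filter, Set.mem_ofPred_eq, mem_filter, mem_range, Nat.lt_succ_iff, Nat.le_sqrt'] at ha hb
    simp only at hab
    have h1 := ha.1.1
    have h2 := hb.1.1
    have h3 : a ^ 2 = b ^ 2 := by omega
    exact Nat.pow_left_injective (n := 2) (by norm_num) h3

/-- **No small primes and many small primes `p` with `n - p` a square.** For every `λ > 0` and every `k`
there is `c > 0` such that for all large `X` at least `c X` of the even integers `1 ≤ n ≤ X` have no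
prime `p ≤ λ √n log n` with `n - p` a square, and at least `c X` of them have `k` or more. -/
theorem result : ∀ (lam : ℝ) (k : ℕ), 0 < lam → ∃ c : ℝ, 0 < c ∧ ∃ X₀ : ℕ, ∀ X : ℕ, X₀ ≤ X →
    c * X ≤ #((Icc 1 X).filter (fun n : ℕ => Even n ∧ R n (lam * √(n : ℝ) * Real.log n) = 0)) ∧
    c * X ≤ #((Icc 1 X).filter (fun n : ℕ => Even n ∧ k ≤ R n (lam * √(n : ℝ) * Real.log n))) := by
  classical
  intro lam k hlam
  obtain ⟨c1, hc1, X1, h1⟩ := Pool.Agent.X40.OS.none_even lam hlam
  obtain ⟨c2, hc2, X2, h2⟩ := Pool.Agent.X40.OS.many_even lam hlam k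
  refine ⟨min c1 c2, by positivity, max X1 X2, fun X hX => ⟨?_, ?_⟩⟩
  · have h3 := h1 X ((le_max_left _ _).trans hX)
    have h4 : min c1 c2 * (X : ℝ) ≤ c1 * X := mul_le_mul_of_nonneg_right (min_le_left _ _) (Nat.cast_nonneg X)
    refine (h4.trans h3).trans (le_of_eq ?_)
    congr 2
    apply filter_congr
    intro n _
    rw [Nat.even_iff, ← R_eq, Nat.cast_eq_zero]
  · have h3 := h2 X ((le_max_right _ _).trans hX)
    have h4 : min c1 c2 * (X : ℝ) ≤ c2 * X := mul_le_mul_of_nonneg_right (min_le_right _ _) (Nat.cast_nonneg X)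
    refine (h4.trans h3).trans (le_of_eq ?_)
    congr 2
    apply filter_congr
    intro n _
    rw [Nat.even_iff, ← R_eq, Nat.cast_le]

end Pool.Agent.Results.MP_d48457_nt.NoneOrManySmallPrimes
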