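import Pool.Agent.X15.SysS.Iso

/-!
# Even numbers `p + m ^ 2`, `m` or `m / 3` an isolated prime: the right order of magnitude

Let `Λ` be arbitrarily large. All even `n ≤ N` but an arbitrarily small proportion have at least
`δ √N / (log N) ^ 2` representations `n = p + m ^ 2` with `p` prime, where `m = q` or `m = 3 q` with a prime `q` that has no
other prime at distance at most `Λ log q`. (The factor `3` is needed: for `n ≡ 1` modulo `3` and `3 ∤ m` the number
`n - m ^ 2` is divisible by `3`.)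

The theorem rests on the library development Pool.Agent.TH882, extended to polynomials with signs in
Pool.Agent.X15.SysS.
-/

set_option autoImplicit false

open Finset Filter Topology

namespace Pool.Agent.Results.MP_d48457_nt.SquaresOfIsolatedPrimes

/-- `q` is a prime, and no other prime is at distance at most `R` from `q`. -/
def IsolatedPrime (R : ℝ) (q : ℕ) : Prop := q.Prime ∧ ∀ l : ℕ, l.Prime → |(l : ℝ) - q| ≤ R → l = q

/-- The integers `m = q` or `m = 3 q`, `q` a prime without another prime at distance at most `Λ log q`, such that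
`n = p + m ^ 2` with `p` prime. -/
def roots (Λ : ℝ) (n : ℕ) : Set ℕ :=
  {m : ℕ | (∃ q : ℕ, IsolatedPrime (Λ * Real.log q) q ∧ (m = q ∨ m = 3 * q)) ∧
    ∃ p : ℕ, p.Prime ∧ n = p + m ^ 2}

/-- The even `n ≤ N` with fewer than `δ √N / (log N) ^ 2` such integers `m`. -/
def exceptions (Λ δ : ℝ) (N : ℕ) : Set ℕ :=
  {n : ℕ | Even n ∧ n ≤ N ∧ ((roots Λ n).ncard : ℝ) < δ * (Real.sqrt N / Real.log N ^ 2)}

lemma roots_finite (Λ : ℝ) (n : ℕ) : (roots Λ n).Finite := by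
  apply (Set.finite_Iic n).subset
  rintro m ⟨-, p, -, h⟩
  rw [Set.mem_Iic]
  nlinarith

lemma loc_one (n : ℕ) (hn : Even n) (h3 : n % 3 ≠ 1) (l : ℕ) (hl : l.Prime) :
    ∃ x : ℤ, ¬ (l : ℤ) ∣ x ∧ ¬ (l : ℤ) ∣ (n : ℤ) - 1 * x ^ 2 := by
  obtain ⟨k, hk⟩ := hn
  have hl2 := hl.two_le
  by_cases hd : (l : ℤ) ∣ (n : ℤ) - 1 * 1 ^ 2
  · refine ⟨2, fun hd2 => ?_, fun hd2 => ?_⟩
    · have h5 := Int.le_of_dvd (by norm_num) hd2
      have h6 : l = 2 := by omega
      subst h6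
      obtain ⟨t, ht⟩ := hd
      omega
    · have h4 := dvd_sub hd hd2
      have h5 : (n : ℤ) - 1 * 1 ^ 2 - ((n : ℤ) - 1 * 2 ^ 2) = 3 := by ring
      rw [h5] at h4
      have h6 := Int.le_of_dvd (by norm_num) h4
      have h7 : l = 2 ∨ l = 3 := by omega
      rcases h7 with rfl | rfl
      · obtain ⟨t, ht⟩ := h4
        omega
      · obtain ⟨t, ht⟩ := hd
        omega
  · exact ⟨1, fun hd1 => by
      have := Int.le_of_dvd (by norm_num) hd1
      omega, hd⟩

lemma loc_three (n : ℕ) (hn : Even n) (h3 : n % 3 = 1) (l : ℕ) (hl : l.Prime) :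
    ∃ x : ℤ, ¬ (l : ℤ) ∣ x ∧ ¬ (l : ℤ) ∣ (n : ℤ) - 9 * x ^ 2 := by
  obtain ⟨k, hk⟩ := hn
  have hl2 := hl.two_le
  by_cases hd : (l : ℤ) ∣ (n : ℤ) - 9 * 1 ^ 2
  · refine ⟨2, fun hd2 => ?_, fun hd2 => ?_⟩
    · have h5 := Int.le_of_dvd (by norm_num) hd2
      have h6 : l = 2 := by omega
      subst h6
      obtain ⟨t, ht⟩ := hd
      omega
    · have h4 := dvd_sub hd hd2
      have h5 : (n : ℤ) - 9 * 1 ^ 2 - ((n : ℤ) - 9 * 2 ^ 2) = ((3 ^ 3 : ℕ) : ℤ) := by
        push_cast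
        ring
      rw [h5] at h4
      have h6 : l ∣ 3 ^ 3 := by exact_mod_cast h4
      have h7 : l = 3 := (Nat.prime_dvd_prime_iff_eq hl Nat.prime_three).1 (hl.dvd_of_dvd_pow h6)
      subst h7
      obtain ⟨t, ht⟩ := hd
      omega
  · exact ⟨1, fun hd1 => by
      have := Int.le_of_dvd (by norm_num) hd1
      omega, hd⟩

/-- one of the two systems: `n - (s q) ^ 2` with `s = 1` or `s = 3` -/
lemma part (s : ℕ) (hs : s = 1 ∨ s = 3) (Λ κ : ℝ) (hΛ : 0 < Λ) (hκ : 0 < κ) : ∃ δ : ℝ, 0 < δ ∧ ∃ N₀ : ℕ,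
    ∀ N : ℕ, N₀ ≤ N → ∀ δ' : ℝ, δ' ≤ δ → (({n : ℕ | n ∈ exceptions Λ δ' N ∧ 1 ≤ n ∧
      ∀ l : ℕ, l.Prime → ∃ x : ℤ, ¬ (l : ℤ) ∣ x ∧ ¬ (l : ℤ) ∣ (n : ℤ) - (s ^ 2 : ℕ) * x ^ 2}.ncard : ℕ) : ℝ) ≤
        κ * N := by
  classical
  have hs0 : (((s ^ 2 : ℕ) : ℤ)) ≠ 0 := by
    rcases hs with rfl | rfl <;> norm_num
  set g : Fin 1 → Polynomial ℤ := fun _ => Polynomial.C ((s ^ 2 : ℕ) : ℤ) * Polynomial.X ^ 2 with hg
  have hgd : ∀ j, (g j).natDegree = 2 := fun j => Polynomial.natDegree_C_mul_X_pow 2 _ hs0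
  have hge : ∀ j, ∀ n : ℤ, (g j).eval n = (s ^ 2 : ℕ) * n ^ 2 := by
    intro j n
    rw [hg]
    simp only [Polynomial.eval_mul, Polynomial.eval_C, Polynomial.eval_pow, Polynomial.eval_X]
  obtain ⟨δ, hδ, x₀, h⟩ := Pool.Agent.X15.SysS.iso_sys (fun _ : Fin 1 => (-1 : ℤ))
    (fun _ => Or.inr rfl) g (fun j => by rw [hgd j]; norm_num)
    (fun j => by
      rw [hg]
      simp only
      rw [Polynomial.leadingCoeff_C_mul_X_pow]
      rcases hs with rfl | rfl <;> norm_num) Λ hΛ 4 κ hκ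
  refine ⟨δ / 2, by positivity, (x₀ + 3) ^ 2, fun N hN δ' hδ' => ?_⟩
  set x : ℕ := Nat.sqrt N with hx
  have hx1 : x₀ + 3 ≤ x := by
    rw [hx, Nat.le_sqrt']
    exact hN
  have hxN : x ^ 2 ≤ N := Nat.sqrt_le' N
  have hNx : N < (x + 1) ^ 2 := Nat.lt_succ_sqrt' N
  have hNx4 : N ≤ 4 * x ^ 2 := by nlinarith
  have h1 := h x (by omega)
  have e0 : ∏ j, (x : ℝ) ^ (g j).natDegree = (x : ℝ) ^ 2 := by
    rw [Fin.prod_univ_one, hgd 0]
  rw [e0] at h1
  have h4 : (x : ℝ) ^ 2 ≤ N := by exact_mod_cast hxN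
  refine le_trans ?_ (h1.trans (mul_le_mul_of_nonneg_left h4 hκ.le))
  apply Nat.cast_le.2
  rw [← Set.ncard_coe_finset]
  apply Set.ncard_le_ncard_of_injOn (fun n : ℕ => fun _ : Fin 1 => n)
  · rintro n ⟨⟨hn1, hn2, hn3⟩, hn4, hn5⟩
    rw [mem_coe, mem_filter, Fintype.mem_piFinset]
    refine ⟨fun j => ?_, ?_, ?_⟩
    · rw [mem_Icc, hgd j]
      exact ⟨hn4, hn2.trans hNx4⟩
    · intro l hl
      obtain ⟨y, hy1, hy2⟩ := hn5 l hl
      refine ⟨y, hy1, fun j hd => hy2 ?_⟩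
      rw [hge j] at hd
      have e2 : (n : ℤ) - (s ^ 2 : ℕ) * y ^ 2 = (n : ℤ) + -1 * ((s ^ 2 : ℕ) * y ^ 2) := by ring
      rw [e2]
      exact hd
    · have hcard : (((Icc 1 x).filter (fun m : ℕ =>
        Pool.Agent.X15.SysS.Isolated (Λ * Real.log m) m ∧
          ∀ j, ((n : ℤ) + -1 * (g j).eval (m : ℤ)).toNat.Prime)).card : ℝ) ≤
          ((roots Λ n).ncard : ℝ) := by
        apply Nat.cast_le.2
        rw [← Set.ncard_coe_finset]
        apply Set.ncard_le_ncard_of_injOn (fun m : ℕ => s * m) _ _ (roots_finite Λ n)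
        · intro m hm
          rw [mem_coe, mem_filter] at hm
          obtain ⟨-, hm1, hm2⟩ := hm
          refine ⟨⟨m, hm1, ?_⟩, _, hm2 0, ?_⟩
          · rcases hs with rfl | rfl
            · left; simp
            · right; rfl
          · have hp := (hm2 0).pos
            have h9 : 0 < (n : ℤ) + -1 * (g 0).eval (m : ℤ) := by
              by_contra hcc
              push Not at hcc
              rw [Int.toNat_of_nonpos hcc] at hp
              omega
            zify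
            rw [Int.toNat_of_nonneg h9.le, hge 0]
            push_cast
            ring
        · intro m _ m' _ hmm
          have hs1 : 0 < s := by rcases hs with rfl | rfl <;> norm_num
          exact Nat.eq_of_mul_eq_mul_left hs1 hmm
      refine lt_of_le_of_lt hcard (lt_of_lt_of_le hn3 ?_)
      have hxr : (3 : ℝ) ≤ x := by exact_mod_cast (by omega : 3 ≤ x)
      have hs : Real.sqrt N ≤ 2 * x := by
        rw [Real.sqrt_le_left (by positivity)]
        have : (N : ℝ) ≤ 4 * (x : ℝ) ^ 2 := by exact_mod_cast hNx4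
        nlinarith
      have hlx : 0 < Real.log x := Real.log_pos (by linarith)
      have hlN : Real.log x ≤ Real.log N := by
        apply Real.log_le_log (by linarith)
        have : x ≤ N := by nlinarith
        exact_mod_cast this
      calc δ' * (Real.sqrt N / Real.log N ^ 2) ≤ δ / 2 * (Real.sqrt N / Real.log N ^ 2) :=
            mul_le_mul_of_nonneg_right hδ' (by positivity)
        _ ≤ δ / 2 * (2 * x / Real.log x ^ 2) := by
            apply mul_le_mul_of_nonneg_left _ (by positivity)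
            exact div_le_div₀ (by positivity) hs (by positivity) (pow_le_pow_left₀ hlx.le hlN 2)
        _ = δ * (x / Real.log x ^ (1 + 1)) := by ring
  · intro n _ m _ hnm
    exact congrFun hnm 0

/-- **Sums of a prime and the square of an isolated prime or of three times an isolated prime.** Let `Λ > 0` and
`κ > 0`. There are `δ > 0` and `N₀` such that for all `N ≥ N₀` all even `n ≤ N` but at most `κ N` have at least
`δ √N / (log N) ^ 2` representations `n = p + m ^ 2` with `p` prime and `m = q` or `m = 3 q`, where `q` is a prime without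
another prime at distance at most `Λ log q`. -/
theorem result (Λ κ : ℝ) (hΛ : 0 < Λ) (hκ : 0 < κ) :
    ∃ δ : ℝ, 0 < δ ∧ ∃ N₀ : ℕ, ∀ N : ℕ, N₀ ≤ N → ((exceptions Λ δ N).ncard : ℝ) ≤ κ * N := by
  obtain ⟨δ₁, hδ₁, N₁, h₁⟩ := part 1 (Or.inl rfl) Λ (κ / 3) hΛ (by positivity)
  obtain ⟨δ₂, hδ₂, N₂, h₂⟩ := part 3 (Or.inr rfl) Λ (κ / 3) hΛ (by positivity)
  refine ⟨min δ₁ δ₂, lt_min hδ₁ hδ₂, max (max N₁ N₂) (⌈3 / κ⌉₊), fun N hN => ?_⟩
  have hN1 : N₁ ≤ N := (le_max_left _ _).trans ((le_max_left _ _).trans hN)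
  have hN2 : N₂ ≤ N := (le_max_right _ _).trans ((le_max_left _ _).trans hN)
  have hN3 : 3 / κ ≤ N := (Nat.le_ceil _).trans (by exact_mod_cast (le_max_right _ _).trans hN)
  have e1 := h₁ N hN1 (min δ₁ δ₂) (min_le_left _ _)
  have e2 := h₂ N hN2 (min δ₁ δ₂) (min_le_right _ _)
  set E := exceptions Λ (min δ₁ δ₂) N with hE
  have hfin : E.Finite := (Set.finite_Iic N).subset fun n hn => hn.2.1
  set A := {n : ℕ | n ∈ E ∧ 1 ≤ n ∧ ∀ l : ℕ, l.Prime → ∃ x : ℤ, ¬ (l : ℤ) ∣ x ∧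
    ¬ (l : ℤ) ∣ (n : ℤ) - (1 ^ 2 : ℕ) * x ^ 2} with hA
  set B := {n : ℕ | n ∈ E ∧ 1 ≤ n ∧ ∀ l : ℕ, l.Prime → ∃ x : ℤ, ¬ (l : ℤ) ∣ x ∧
    ¬ (l : ℤ) ∣ (n : ℤ) - (3 ^ 2 : ℕ) * x ^ 2} with hB
  have hsub : E ⊆ {0} ∪ (A ∪ B) := by
    intro n hn
    by_cases h0 : n = 0
    · exact Or.inl h0
    · right
      by_cases h3 : n % 3 = 1
      · right
        refine ⟨hn, by omega, fun l hl => ?_⟩
        obtain ⟨x, hx1, hx2⟩ := loc_three n hn.1 h3 l hl
        exact ⟨x, hx1, by push_cast; norm_num; exact hx2⟩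
      · left
        refine ⟨hn, by omega, fun l hl => ?_⟩
        obtain ⟨x, hx1, hx2⟩ := loc_one n hn.1 h3 l hl
        exact ⟨x, hx1, by push_cast; norm_num; norm_num at hx2; exact hx2⟩
  have hAf : A.Finite := hfin.subset fun n hn => hn.1
  have hBf : B.Finite := hfin.subset fun n hn => hn.1
  have f1 := Set.ncard_le_ncard hsub ((Set.finite_singleton 0).union (hAf.union hBf))
  have f2 := Set.ncard_union_le ({0} : Set ℕ) (A ∪ B)
  have f3 := Set.ncard_union_le A B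
  rw [Set.ncard_singleton] at f2
  have f4 : (E.ncard : ℝ) ≤ 1 + (A.ncard + B.ncard) := by exact_mod_cast f1.trans (f2.trans (by omega))
  have f5 : (1 : ℝ) ≤ κ / 3 * N := by
    rw [div_le_iff₀ hκ] at hN3
    linarith
  linarith

end Pool.Agent.Results.MP_d48457_nt.SquaresOfIsolatedPrimes
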