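import Pool.Agent.X34.M.M6

set_option autoImplicit false

/-!
# Even numbers `2 p` that are not the sum of a prime and the square of a small number

Q1 asks whether every large even nonsquare is `q + m ^ 2` with `q` prime. For at least `X ^ (9 / 10)` primes `p` in
`(X, 3 X]` (in any class modulo a squarefree number) the even number `2 p` is such that `2 p = q + m ^ 2` with `q` prime
implies `m > c f(p)`, and `m > c f(p) log log p` if `m` is a prime, where
`f(p) = log p (log₂ p)² log₄ p / (log₃ p)²` (iterated natural logarithms) is the size of the largest known gaps between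
primes. This is a case of a theorem for the numbers `(a p - b m ^ 2) / i` and arbitrary sets of integers `m`.

Proof: the record covering sieve with a prime in the middle (starting library, `Pool.Agent.TH101.RG.oneZ`, helper101)
for the family of the forms `a p - b z ^ 2`.
-/

namespace Pool.Agent.Results.MP_d48457_nt.TwiceAPrime

/-- The record scale `f(x) = log x (log₂ x)² log₄ x / (log₃ x)²` (iterated natural logarithms). -/
noncomputable def f (x : ℝ) : ℝ :=
  Real.log x * (Real.log (Real.log x)) ^ 2 * Real.log (Real.log (Real.log (Real.log x))) /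
    (Real.log (Real.log (Real.log x))) ^ 2

open Filter in
/-- (1) For every squarefree `d` there is `c > 0` such that for all large `X` and all `h` prime to `d` at least
`X ^ (9 / 10)` primes `p` with `X < p ≤ 3 X`, `p ≡ h (mod d)` have the property: if `2 p = q + m ^ 2` with `q` prime,
then `m > c f(p)`, and if moreover `m` is prime, then `m > c f(p) log log p`.

(2) For all `A`, `D`, `A₀` and every squarefree `d` there is `c > 0` such that for all large `X`, all integers
`1 ≤ a, b ≤ (log X)^D` with `a ≤ A₀ φ(a)`, `b ≤ A₀ φ(b)`, all `h` prime to `d` and all finite sets `Z` of positive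
integers `z ≤ log X (log log X)^A` with `∑ z / φ(z) ≤ c f(X)`: at least `X ^ (9 / 10)` primes `p` with
`X < p ≤ 3 X`, `p ≡ h (mod d)` are such that `a p ≠ q + b z ^ 2` for all primes `q` and all `z ∈ Z`. -/
theorem result :
    (∀ d : ℕ, Squarefree d → ∃ c : ℝ, 0 < c ∧ ∃ X₀ : ℝ, ∀ X : ℝ, X₀ ≤ X → ∀ h : ℕ, h.Coprime d →
      X ^ (9 / 10 : ℝ) ≤ ({p : ℕ | p.Prime ∧ X < p ∧ (p : ℝ) ≤ 3 * X ∧ p ≡ h [MOD d] ∧
        ∀ q m : ℕ, q.Prime → 2 * p = q + m ^ 2 → c * f p < m ∧
          (m.Prime → c * (f p * Real.log (Real.log p)) < m)}.ncard : ℝ)) ∧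
    (∀ (A D : ℕ) (A₀ : ℝ) (d : ℕ), Squarefree d → ∃ c : ℝ, 0 < c ∧ ∃ X₀ : ℝ, ∀ X : ℝ, X₀ ≤ X →
      ∀ a b : ℕ, 1 ≤ a → 1 ≤ b → (a : ℝ) ≤ (Real.log X) ^ D → (b : ℝ) ≤ (Real.log X) ^ D →
      (a : ℝ) ≤ A₀ * (a.totient : ℝ) → (b : ℝ) ≤ A₀ * (b.totient : ℝ) → ∀ h : ℕ, h.Coprime d →
      ∀ Z : Finset ℕ, (∀ z ∈ Z, 1 ≤ z ∧ (z : ℝ) ≤ Real.log X * (Real.log (Real.log X)) ^ A) →
      ∑ z ∈ Z, ((z : ℝ) / (z.totient : ℝ)) ≤ c * f X →
      X ^ (9 / 10 : ℝ) ≤ ({p : ℕ | p.Prime ∧ X < p ∧ (p : ℝ) ≤ 3 * X ∧ p ≡ h [MOD d] ∧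
        ∀ z ∈ Z, ∀ q : ℕ, q.Prime → a * p ≠ q + b * z ^ 2}.ncard : ℝ)) := by
  have habs : ∀ x : ℤ, ((x.natAbs : ℕ) : ℝ) = |(x : ℝ)| := fun x => by rw [Nat.cast_natAbs, Int.cast_abs]
  constructor
  · intro d hd
    obtain ⟨c₀, hc₀, hX₀⟩ := Pool.Agent.X34.M.mono_comp 4 1 2 2 d hd
    obtain ⟨c₁, hc₁, hX₁⟩ := Pool.Agent.X34.M.stdset c₀ hc₀
    refine ⟨c₁, hc₁, eventually_atTop.1 ?_⟩
    filter_upwards [hX₀, hX₁, Real.tendsto_log_atTop.eventually_ge_atTop 2, eventually_ge_atTop 2]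
      with X hX0 hX1 hL2 hX2
    intro h hh
    obtain ⟨Z, hZ1, hZ2, hZ3⟩ := hX1
    refine (hX0 2 (-1) two_ne_zero (by norm_num) (by rw [pow_one]; norm_num; exact hL2)
      (by rw [pow_one]; norm_num; linarith) (by simp) (by simp) 0 2 (by norm_num) le_rfl
      (by norm_num) h hh Z hZ1 hZ2).trans ?_
    rw [Nat.cast_le]
    refine Set.ncard_le_ncard ?_ ?_
    · rintro p ⟨hp, hXp, hp3, hpd, hmain⟩
      obtain ⟨h1, h2⟩ := hZ3 p hXp hp3
      have key : ∀ q m : ℕ, q.Prime → 2 * p = q + m ^ 2 → m ∉ Z := by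
        intro q m hq he hm
        apply hmain m hm
        have h3 : ((2 : ℤ) * (m : ℤ) ^ 0 * p + (-1) * (m : ℤ) ^ 2) = (q : ℤ) := by
          have h4 : (2 : ℤ) * p = q + (m : ℤ) ^ 2 := by exact_mod_cast he
          linear_combination h4
        rw [h3, Int.natAbs_natCast]
        exact hq
      refine ⟨hp, hXp, hp3, hpd, fun q m hq he => ⟨?_, fun hmp => ?_⟩⟩
      · by_contra hcon
        push Not at hcon
        have hm0 : 1 ≤ m := by
          rcases Nat.eq_zero_or_pos m with h3 | h3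
          · exfalso
            subst h3
            have h4 : 2 * p = q := by omega
            rw [← h4] at hq
            have h5 : ¬ (2 * p).Prime := Nat.not_prime_mul (by norm_num) hp.one_lt.ne'
            exact h5 hq
          · exact h3
        exact key q m hq he (h1 m hm0 hcon)
      · by_contra hcon
        push Not at hcon
        exact key q m hq he (h2 m hmp hcon)
    · apply (Set.finite_Iic ⌊3 * X⌋₊).subset
      intro p hp
      exact Set.mem_Iic.2 (Nat.le_floor hp.2.2.1)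
  · intro A D A₀ d hd
    obtain ⟨c, hc, hX⟩ := Pool.Agent.X34.M.mono_comp A D 2 A₀ d hd
    refine ⟨c, hc, eventually_atTop.1 ?_⟩
    filter_upwards [hX] with X hX
    intro a b ha hb haD hbD haφ hbφ h hh Z hZ hZw
    have haR : |(((a : ℤ) : ℝ))| = a := by
      rw [Int.cast_natCast, abs_of_nonneg (Nat.cast_nonneg a)]
    have hbR : |(((-(b : ℤ) : ℤ) : ℝ))| = b := by
      rw [Int.cast_neg, Int.cast_natCast, abs_neg, abs_of_nonneg (Nat.cast_nonneg b)]
    refine (hX a (-(b : ℤ)) (by positivity) (by omega) (by rw [haR]; exact haD)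
      (by rw [hbR]; exact hbD) (by simpa using haφ) (by simpa using hbφ) 0 2 (by norm_num) le_rfl
      (by norm_num) h hh Z hZ hZw).trans ?_
    rw [Nat.cast_le]
    refine Set.ncard_le_ncard ?_ ?_
    · rintro p ⟨hp, hXp, hp3, hpd, hmain⟩
      refine ⟨hp, hXp, hp3, hpd, fun z hz q hq he => hmain z hz ?_⟩
      have h4 : (a : ℤ) * (z : ℤ) ^ 0 * p + (-(b : ℤ)) * (z : ℤ) ^ 2 = (q : ℤ) := by
        have h5 : (a : ℤ) * p = q + b * (z : ℤ) ^ 2 := by exact_mod_cast he
        linear_combination h5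
      rw [h4, Int.natAbs_natCast]
      exact hq
    · apply (Set.finite_Iic ⌊3 * X⌋₊).subset
      intro p hp
      exact Set.mem_Iic.2 (Nat.le_floor hp.2.2.1)

end Pool.Agent.Results.MP_d48457_nt.TwiceAPrime
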